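import Mathlib
import Pool.Agent.Q12.VB.Trs
import Pool.Agent.Q12.VB.EK

/-! Continuation or transcendence on the edge, for all integer products of `L`-series of elliptic curves over number
fields. -/

set_option autoImplicit false

open Filter Topology MeasureTheory
open Pool.Agent.Q12.VB

namespace Pool.Agent.Results.MP_0d9be2_nt.IntegerProducts

/-- the point `3/2 + iτ` -/
noncomputable def edge (τ : ℝ) : ℂ := 3 / 2 + τ * Complex.I

/-- the angle at `3/2 + iτ` -/
def angle (τ C : ℝ) : Set ℂ := {s : ℂ | 3 / 2 < s.re ∧ ‖s - edge τ‖ ≤ C * (s.re - 3 / 2)}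

/-- `f`, a function on the half-plane `Re s > 3/2`, continues holomorphically to a neighbourhood of `3/2 + iτ` -/
def Continues (f : ℂ → ℂ) (τ : ℝ) : Prop :=
  ∃ φ : ℂ → ℂ, AnalyticAt ℂ φ (edge τ) ∧ ∀ᶠ s in 𝓝 (edge τ), 3 / 2 < s.re → f s = φ s

theorem edge_eq (τ : ℝ) : ept (1 / 2) τ = edge τ := by
  unfold ept edge
  push_cast
  ring

/-- **Continuation or transcendence.** Let `L_j = L(E_j/K_j ⊗ c_j, s)` be any countable family of `L`-series of elliptic
curves over number fields, with twists. There are functions `l_j` on the real line such that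

* for all `τ` outside one set of Hausdorff dimension `0`, for all `j`: `l_j(τ) ≠ 0`, and `L_j(s)` tends to `l_j(τ)` as
  `s` tends to `3/2 + iτ` in any angle in the half-plane `Re s > 3/2`;
* for every countable set `A` of functions, for almost every real `τ`, for ALL products `∏_j L_j^{k_j}` with integer
  exponents, almost all of them zero: either the product continues holomorphically to a neighbourhood of `3/2 + iτ`, or
  its boundary value `∏_j l_j(τ)^{k_j}` is transcendental over the field generated over `ℚ` by the values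
  `g(3/2 + iτ)` of all functions `g` in `A` which are analytic at `3/2 + iτ`. -/
theorem result (ι : Type) [Countable ι] (D : ι → EDatum) :
    ∃ l : ι → ℝ → ℂ,
      (∃ N : Set ℝ, dimH N = 0 ∧ ∀ τ : ℝ, τ ∉ N → ∀ j, l j τ ≠ 0 ∧ ∀ C : ℝ,
        Tendsto (D j).LFun (𝓝[angle τ C] (edge τ)) (𝓝 (l j τ))) ∧
      ∀ A : Set (ℂ → ℂ), A.Countable → ∀ᵐ τ : ℝ, ∀ k : ι →₀ ℤ,
        Continues (fun s => k.prod fun j e => (D j).LFun s ^ e) τ ∨
          Transcendental (IntermediateField.adjoin ℚ (values A (edge τ))) (k.prod fun j e => l j τ ^ e) := by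
  refine ⟨fun j => lb (Pool.Agent.TH339.MP.bb (D j).be), ⟨_, (ell_fam D).exc_dim, fun τ hτ j => ⟨lb_ne _ _, fun C => ?_⟩⟩,
    fun A hA => ?_⟩
  · have h1 := (ell_fam D).angle (j := j) (τ := τ) (fun h => hτ (Set.mem_iUnion.2 ⟨j, h⟩)) C
    have h2 : ang (1 / 2) τ C = angle τ C := by
      unfold ang angle
      rw [edge_eq]
      norm_num
    rw [h2, edge_eq] at h1
    exact h1
  · filter_upwards [(ell_fam D).transc_at hA] with τ hτ k
    have h1 := hτ k
    rw [edge_eq] at h1
    rcases h1 with h1 | h1
    · left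
      unfold ContinuesAt at h1
      rw [edge_eq] at h1
      unfold Continues
      norm_num at h1 ⊢
      exact h1
    · right
      exact h1

end Pool.Agent.Results.MP_0d9be2_nt.IntegerProducts
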