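import Pool.Agent.Results.MP_bf61d2_nt.HardyCriterion
import Pool.Agent.Q245.Me.Sys
import Pool.Agent.Q245.Me.Ord

/-!
# A criterion for the meromorphic continuation of `L(E/K, s)` to half planes `Re s > 1 + η`

Let `K` be a number field and `E : y² = x³ + a x + b` an elliptic curve with `a, b ∈ 𝓞_K`. NOTHING is
assumed on the `L`-series `L(s) = ∏_{v ∤ 6Δ} (1 - a_v Nv^{-s} + Nv^{1-2s})⁻¹` outside of its half plane
of absolute convergence `Re s > 3/2`. Let

`P*(y) = exp (- ∑_{Nv^k ≤ y} (α_v^k + β_v^k)/(k Nv^k))`,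

a finite expression in the numbers of points of `E` over finite fields, and let `0 ≤ η < 1/2`. Fix a
finite set `Z` of complex numbers `ρ` with `Re ρ < 1/2` and integers `m(ρ)`, symmetric under complex
conjugation, real numbers `r` and `A > 0`. The following are EQUIVALENT:

* `∫_e^∞ (log (A P*(y) / (e^γ log y)^r) - ∑_{ρ ∈ Z} m(ρ) Ein(ρ log y))² y^{-2η} dy/y < ∞`, where
  `Ein(w) = ∫_0^1 (e^{wt} - 1)/t dt`;
* `L(1 + w) = A w^r ∏_{ρ ∈ Z} (1 - ρ/w)^{m(ρ)} exp (w H(w))` with a function `H` in the Hardy space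
  `H²` of the half plane `Re w > η`.

In this case `L(1 + w)` has a meromorphic continuation to `Re w > η`, and its zeros and poles there
are exactly the `ρ ∈ Z` with `Re ρ > η`, with the orders `m(ρ)`. So the existence of a meromorphic
continuation of `L(E/K, s)` to a half plane `Re s > 1 + η` with finitely many zeros and poles (and a
quadratic bound for the logarithm of the remaining factor), which is not known for general `K`, and
the positions and the orders of all zeros and poles are one arithmetic statement about the numbers of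
points of `E` over the residue fields.

For `Z = ∅` and `η = 0` this is helper5's theorem `HardyCriterion` (problem `MP_bf61d2_nt`), whose
proof is followed; new are the zeros and poles and all half planes.
-/

set_option autoImplicit false
set_option maxHeartbeats 1000000

namespace Pool.Agent.Results.MP_0d9be2_nt.MeromorphicHardyCriterion

open Filter Topology Set Complex NumberField IsDedekindDomain MeasureTheory
open Pool.Agent.Results.MP_ae0bd0_nt.MeanProduct (Good norm points trace factor powerSum productStar)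

variable {K : Type} [Field K] [NumberField K]

/-- `Ein(w) = ∫_0^1 (exp (w t) - 1) / t dt`, an entire function of `w`. -/
noncomputable def Ein (w : ℂ) : ℂ := ∫ t in (0 : ℝ)..1, (exp (w * t) - 1) / t

/-- `H` belongs to the Hardy space `H²` of the half plane `Re w > η`: it is analytic there, bounded on
the smaller half planes, and the integrals of `|H|²` over the vertical lines are bounded. -/
structure Hardy (η : ℝ) (H : ℂ → ℂ) : Prop where
  analytic : ∀ w : ℂ, η < w.re → DifferentiableAt ℂ H w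
  bounded : ∀ x : ℝ, η < x → ∃ B : ℝ, ∀ w : ℂ, x ≤ w.re → ‖H w‖ ≤ B
  square : ∃ M : ℝ, ∀ x : ℝ, η < x → ∫⁻ t : ℝ, ‖H (x + t * I)‖ₑ ^ 2 ≤ ENNReal.ofReal M

/-- The divisor `∑_{ρ ∈ Z} m(ρ) ρ` is symmetric under complex conjugation. -/
def Symmetric (Z : Finset ℂ) (m : ℂ → ℤ) : Prop :=
  ∀ ρ ∈ Z, (starRingEnd ℂ) ρ ∈ Z ∧ m ((starRingEnd ℂ) ρ) = m ρ

/-- `log (A P*(y) / (e^γ log y)^r) - ∑_{ρ ∈ Z} m(ρ) Ein(ρ log y)`; the sum is real if the divisor is
symmetric. -/
noncomputable def deviation (a b : 𝓞 K) (r A : ℝ) (Z : Finset ℂ) (m : ℂ → ℤ) (y : ℝ) : ℝ :=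
  Real.log (A * productStar a b y / (Real.exp Real.eulerMascheroniConstant * Real.log y) ^ r) -
    ∑ ρ ∈ Z, (m ρ : ℝ) * (Ein (ρ * Real.log y)).re

/-- `∫_e^∞ deviation(y)² y^{-2η} dy/y < ∞`. -/
def SquareIntegrable (a b : 𝓞 K) (r A : ℝ) (Z : Finset ℂ) (m : ℂ → ℤ) (η : ℝ) : Prop :=
  IntegrableOn (fun y : ℝ => deviation a b r A Z m y ^ 2 * y ^ (-(2 * η)) / y) (Ioi (Real.exp 1))

/-- `A w^r ∏_{ρ ∈ Z} (1 - ρ/w)^{m(ρ)} exp (w H(w))` -/
noncomputable def continuation (r A : ℝ) (Z : Finset ℂ) (m : ℂ → ℤ) (H : ℂ → ℂ) (w : ℂ) : ℂ :=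
  A * w ^ (r : ℂ) * (∏ ρ ∈ Z, (1 - ρ / w) ^ m ρ) * exp (w * H w)

/-- For `Re s > 3/2` the `L`-series `∏_v factor v` of `E/K` at `s` is `F(s - 1)`. -/
def Represents (a b : 𝓞 K) (F : ℂ → ℂ) : Prop :=
  ∀ w : ℂ, (1 : ℝ) / 2 < w.re →
    HasProd (fun v : {v : HeightOneSpectrum (𝓞 K) // Good a b v} => factor a b v.1 (1 + w)) (F w)

/-! ### translation -/

open Pool.Agent.Results.MP_ae0bd0_nt.MeanProduct (NN real_sums)
open Pool.Agent.Results.MP_1a91b9_nt.MeanSquareLeading (devStar)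
open Pool.Agent.Results.MP_bf61d2_nt.HardyCriterion (dev_eq' prod_iff)
open Pool.Agent.TH942.ES (alV curve_sys LE)
open Pool.Agent.TH270.MS (DvR)
open Pool.Agent.Q245.Me (H2e gZ gZ_GD RZ RZ_exp RZ_diff sys_mero FZ FZ_order)

theorem dev_eq (a b : 𝓞 K) (r : ℝ) {A y : ℝ} (hA : 0 < A) (hy : 1 < y) (Z : Finset ℂ)
    (m : ℂ → ℤ) :
    deviation a b r A Z m y = -(DvR (NN a b) (alV a b) r A y + gZ Z m (Real.log y)) := by
  have h1 := dev_eq' (ρ := r) a b hA hy
  unfold devStar at h1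
  unfold deviation
  rw [h1]
  unfold gZ
  have h2 : ∀ ρ : ℂ, Ein ρ = Pool.Agent.Q245.Me.Ein ρ := fun _ => rfl
  simp only [h2]
  ring

theorem int_iff (a b : 𝓞 K) (r : ℝ) {A : ℝ} (hA : 0 < A) (Z : Finset ℂ) (m : ℂ → ℤ) (η : ℝ) :
    SquareIntegrable a b r A Z m η ↔
    IntegrableOn (fun Y : ℝ => (DvR (NN a b) (alV a b) r A Y + gZ Z m (Real.log Y)) ^ 2 *
      Y ^ (-(2 * η)) / Y) (Ioi (Real.exp 1)) := by
  refine integrableOn_congr_fun (fun y hy => ?_) measurableSet_Ioi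
  have hy' : Real.exp 1 < y := hy
  have hy1 : 1 < y := by linarith [Real.add_one_le_exp 1]
  rw [dev_eq a b r hA hy1, neg_sq]

theorem rep_iff (a b : 𝓞 K) (F : ℂ → ℂ) :
    Represents a b F ↔ ∀ w : ℂ, 1 / 2 < w.re → LE (NN a b) (alV a b) w = F w :=
  forall_congr' fun _ => forall_congr' fun hw => prod_iff a b hw _

theorem hardy_iff (η : ℝ) (H : ℂ → ℂ) : Hardy η H ↔ H2e η H :=
  ⟨fun ⟨h1, h2, h3⟩ => ⟨h1, h2, h3⟩, fun ⟨h1, h2, h3⟩ => ⟨h1, h2, h3⟩⟩

open scoped Classical in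
/-- **The criterion for the meromorphic continuation of `L(E/K, s)`.** -/
theorem result (K : Type) [Field K] [NumberField K] (a b : 𝓞 K)
    (_hΔ : 4 * a ^ 3 + 27 * b ^ 2 ≠ 0) (r A : ℝ) (hA : 0 < A) (Z : Finset ℂ) (m : ℂ → ℤ)
    (hZ : Symmetric Z m) (hre : ∀ ρ ∈ Z, ρ.re < 1 / 2) (η : ℝ) (hη : 0 ≤ η) (hη2 : η < 1 / 2) :
    (SquareIntegrable a b r A Z m η ↔
      ∃ H : ℂ → ℂ, Hardy η H ∧ Represents a b (continuation r A Z m H)) ∧
    (SquareIntegrable a b r A Z m η → ∃ F : ℂ → ℂ, Represents a b F ∧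
      ∀ w : ℂ, η < w.re → MeromorphicAt F w ∧
        meromorphicOrderAt F w = ((if w ∈ Z then m w else 0 : ℤ) : WithTop ℤ)) := by
  have hre' : ∀ ρ ∈ Z, ρ.re ≤ 1 / 2 := fun ρ hρ => (hre ρ hρ).le
  have hRd : ∀ s : ℂ, 1 / 2 < s.re → DifferentiableAt ℂ (RZ Z m) s := by
    intro s hs
    refine RZ_diff ?_ fun h => ?_
    · rintro rfl
      simp at hs
      linarith
    · have := hre s h
      linarith
  have main := sys_mero (curve_sys a b) (real_sums a b) r hA hη hη2 (gZ_GD hZ hre')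
    (fun s hs => RZ_exp hre' hs) hRd
  rw [← int_iff a b r hA Z m η] at main
  have h1 : SquareIntegrable a b r A Z m η ↔
      ∃ H : ℂ → ℂ, Hardy η H ∧ Represents a b (continuation r A Z m H) := by
    rw [main]
    refine exists_congr fun H => and_congr (hardy_iff η H).symm ?_
    rw [rep_iff]
    rfl
  refine ⟨h1, fun h => ?_⟩
  obtain ⟨H, hH, hF⟩ := h1.1 h
  exact ⟨continuation r A Z m H, hF, fun w hw => FZ_order hA hη hH.analytic hw⟩

end Pool.Agent.Results.MP_0d9be2_nt.MeromorphicHardyCriterion
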