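import Pool.Agent.Q28.LS.Heights
import Pool.Agent.Q28.Old.TruncatedTwists

/-!
# L-series of elliptic curves over number fields inside the critical strip, at almost all heights

`E` is an elliptic curve over a number field `K`.  The Euler product of `L(E, s)`, and of its twists,
converges absolutely for `Re s > 3/2`; a meromorphic continuation to any point of the strip
`1 < Re s ≤ 3/2` is not known in general, and nothing of the kind is assumed.

Let `P_x(s)` be the Euler product truncated at `Nv ≤ x`.  If `L(E, s)` had a continuation of finite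
order without zeros and poles for `Re s > 1`, then for every `ε > 0` and `A > 1/ε` the `P_x(s)` with
`x ≥ (log T)^A` would agree up to a factor `1 + O(x^(-δ))` for all `s` with `Re s ≥ 1 + ε` and
`|Im s| ≤ T`.  The theorem proves this unconditionally for the lengths between `(log T)^A` and `T`
(for every `A > 1/(2ε)`) at all heights up to `T` outside at most `T^(1 - δ)` unit intervals, uniformly
for all elliptic curves over all number fields of degree at most `n` and for all twists by completely
multiplicative functions `c` with `|c| ≤ 1`, for instance Dirichlet characters.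

The proof (`Pool.Agent.Q28.LS`) is through the mean value theorem for Dirichlet polynomials at
well-spaced points (`DH31.discrete_mv`), applied to powers of sums over primes in short intervals, and a
maximal inequality.
-/

set_option autoImplicit false

namespace Pool.Agent.Results.MP_0d9be2_nt.TruncatedHeights

open NumberField IsDedekindDomain Filter Topology
open Pool.Agent.Results.MP_7ed9c3_nt.TruncatedTwists (Curve truncated close_of)

/-- `c` is a completely multiplicative function on the positive integers with `|c| ≤ 1`. -/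
structure Multiplicative (c : ℕ → ℂ) : Prop where
  one : c 1 = 1
  mul : ∀ m n : ℕ, m ≠ 0 → n ≠ 0 → c (m * n) = c m * c n
  bound : ∀ n : ℕ, ‖c n‖ ≤ 1

/-- **Almost all heights inside the strip.**  For `ε > 0` and `A > 1/(2ε)` there is `δ > 0`, and for
every `n` there is `T₀`, such that for every elliptic curve `E` over a number field of degree at most
`n`, every completely multiplicative `c`, `|c| ≤ 1` (for instance `c = 1`), and every `T ≥ T₀` the
following holds for all integers `0 ≤ m < T` with at most `T^(1 - δ)` exceptions: for all `x ≤ y` between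
`(log T)^A` and `T` and all `s` with `Re s ≥ 1 + ε` and `|Im s - m| ≤ 1` the truncated Euler products
of `L(E ⊗ c, s)` satisfy `|P_y(s) - P_x(s)| ≤ x^(-δ) |P_x(s)|`. -/
theorem result (ε A : ℝ) (hε : 0 < ε) (hA : 1 / (2 * ε) < A) :
    ∃ δ : ℝ, 0 < δ ∧ ∀ n : ℕ, ∃ T₀ : ℕ, ∀ (D : Curve n) (c : ℕ → ℂ), Multiplicative c →
      ∀ T : ℕ, T₀ ≤ T → ∃ 𝓔 : Finset ℕ, (𝓔.card : ℝ) ≤ (T : ℝ) ^ (1 - δ) ∧
        ∀ m : ℕ, m < T → m ∉ 𝓔 →
          ∀ x y : ℝ, (Real.log T) ^ A ≤ x → x ≤ y → y ≤ T →
            ∀ s : ℂ, 1 + ε ≤ s.re → |s.im - m| ≤ 1 →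
              ‖truncated c D.W y s - truncated c D.W x s‖ ≤ x ^ (-δ) * ‖truncated c D.W x s‖ := by
  classical
  have hA1 : 1 < 2 * ε * A := by
    rw [div_lt_iff₀ (by positivity)] at hA
    linarith
  obtain ⟨δ, hδ, H⟩ := Pool.Agent.Q28.LS.heights ε A hε hA1
  refine ⟨δ, hδ, fun n => ?_⟩
  obtain ⟨T₀, hT₀⟩ := H 2 n (6 ^ n + 1) (by norm_num)
  refine ⟨T₀, fun D c hc T hT => ?_⟩
  have h1 := hT₀ T hT c ⟨hc.one, hc.mul, hc.bound⟩ D.K D.degree (1 / 2) _ _
    (Pool.Agent.Q28.LS.good_EC D.W D.degree)
  refine ⟨_, h1, fun m hm hne x y hx hxy hyT s hs hst => ?_⟩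
  rw [Finset.mem_filter, not_and, not_not] at hne
  have h3 := hne (Finset.mem_range.2 hm) x y hx hxy hyT s (by linarith) hst
  have hx0 : 0 ≤ x := le_trans (Real.rpow_nonneg (Real.log_natCast_nonneg _) _) hx
  exact close_of c D.W hx0 hxy s h3

end Pool.Agent.Results.MP_0d9be2_nt.TruncatedHeights
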