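import Pool.Agent.Q9.EL.AP
import Pool.Agent.Q9.EL.ECB

/-!
# Universal almost periods of the L-series of elliptic curves on the edge of convergence

`E` is an elliptic curve over a number field `K`.  The Euler product `L(E, s)` converges for
`Re s > 3/2`; a continuation to any point of the edge `Re s = 3/2` is not known in general, and nothing
of this kind is assumed.  Let `edgeLog(t)` be the boundary value of `log L(E, s)` at `3/2 + it`, which
exists outside a set of Hausdorff dimension zero.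

For every `n` and `ε > 0` there are `X` and `δ > 0` such that every real `τ` with `|p^{-iτ} - 1| ≤ δ` for
the primes `p ≤ X` is an `ε`-almost period of `edgeLog` in the mean of order two over ALL intervals of
length one, for ALL elliptic curves over ALL number fields of degree `≤ n` and all their twists.  These
`τ` are relatively dense.
-/

set_option autoImplicit false

namespace Pool.Agent.Results.MP_0d9be2_nt.UniversalAlmostPeriods

open NumberField IsDedekindDomain MeasureTheory Filter Topology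

variable {K : Type} [Field K] [NumberField K]

/-- `W v` is, for every finite place `v`, an integral model of `E` with discriminant minimal at
`v`. -/
def MinimalModels (E : WeierstrassCurve K)
    (W : HeightOneSpectrum (𝓞 K) → WeierstrassCurve (𝓞 K)) : Prop :=
  ∀ v : HeightOneSpectrum (𝓞 K),
    (∃ C : WeierstrassCurve.VariableChange K, C • (W v).map (algebraMap (𝓞 K) K) = E) ∧
    ∀ W' : WeierstrassCurve (𝓞 K),
      (∃ C : WeierstrassCurve.VariableChange K, C • W'.map (algebraMap (𝓞 K) K) = E) →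
      ∀ n : ℕ, (W v).Δ ∈ v.asIdeal ^ n → W'.Δ ∈ v.asIdeal ^ n

/-- `a_v`, which is `Nv` minus the number of affine points of the reduction of `W v`; for bad reduction
this is `1`, `-1`, `0` in the split multiplicative, non-split multiplicative, additive case. -/
noncomputable def trace (W : HeightOneSpectrum (𝓞 K) → WeierstrassCurve (𝓞 K))
    (v : HeightOneSpectrum (𝓞 K)) : ℂ :=
  (Ideal.absNorm v.asIdeal : ℂ)
    - (Nat.card {xy : (𝓞 K ⧸ v.asIdeal) × (𝓞 K ⧸ v.asIdeal) //
        ((W v).map (Ideal.Quotient.mk v.asIdeal)).toAffine.Equation xy.1 xy.2} : ℂ)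

open Classical in
/-- The inverse of the Euler factor at `v` of the twist by the function `c`: with
`x = c(Nv) Nv^{-s}` it is `1 - a_v x + Nv x²` if the reduction at `v` is good and `1 - a_v x` if it is
bad.  For `c = 1` it is the Euler factor of `L(E, s)`. -/
noncomputable def denominator (c : ℕ → ℂ) (W : HeightOneSpectrum (𝓞 K) → WeierstrassCurve (𝓞 K))
    (v : HeightOneSpectrum (𝓞 K)) (s : ℂ) : ℂ :=
  1 - trace W v * (c (Ideal.absNorm v.asIdeal) * (Ideal.absNorm v.asIdeal : ℂ) ^ (-s)) +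
    (if (W v).Δ ∈ v.asIdeal then 0 else (Ideal.absNorm v.asIdeal : ℂ)) *
      (c (Ideal.absNorm v.asIdeal) * (Ideal.absNorm v.asIdeal : ℂ) ^ (-s)) ^ 2

/-- The `L`-series of `E`, twisted by `c`, as the Euler product over all finite places. -/
noncomputable def LSeries (c : ℕ → ℂ) (W : HeightOneSpectrum (𝓞 K) → WeierstrassCurve (𝓞 K))
    (s : ℂ) : ℂ :=
  ∏' v : HeightOneSpectrum (𝓞 K), (denominator c W v s)⁻¹

/-- Its logarithm for `Re s > 3/2`, the sum of the principal logarithms of the Euler factors. -/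
noncomputable def logL (c : ℕ → ℂ) (W : HeightOneSpectrum (𝓞 K) → WeierstrassCurve (𝓞 K))
    (s : ℂ) : ℂ :=
  ∑' v : HeightOneSpectrum (𝓞 K), -Complex.log (denominator c W v s)

/-- The point `3/2 + iτ` of the edge. -/
noncomputable def edge (τ : ℝ) : ℂ := 3 / 2 + τ * Complex.I

/-- The angle `|s - (3/2 + iτ)| ≤ C (Re s - 3/2)` in the half-plane `Re s > 3/2`. -/
def angle (τ C : ℝ) : Set ℂ :=
  {s : ℂ | 3 / 2 < s.re ∧ ‖s - edge τ‖ ≤ C * (s.re - 3 / 2)}

/-- The boundary value of the logarithm at `3/2 + iτ`: its limit along the horizontal line. -/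
noncomputable def edgeLog (c : ℕ → ℂ) (W : HeightOneSpectrum (𝓞 K) → WeierstrassCurve (𝓞 K))
    (τ : ℝ) : ℂ :=
  limUnder (𝓝[>] (0 : ℝ)) fun h : ℝ => logL c W (edge τ + h)

/-- `|p^{-iτ} - 1| ≤ δ` for all primes `p ≤ X`. -/
def IsAlmostPeriod (X : ℕ) (δ τ : ℝ) : Prop :=
  ∀ p : ℕ, p.Prime → p ≤ X → ‖(p : ℂ) ^ (-((τ : ℂ) * Complex.I)) - 1‖ ≤ δ

lemma denominator_eq (c : ℕ → ℂ) (W : HeightOneSpectrum (𝓞 K) → WeierstrassCurve (𝓞 K))
    (v : HeightOneSpectrum (𝓞 K)) (s : ℂ) :
    denominator c W v s = 1 - Pool.Agent.Q9.EL.yv c W v s := by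
  have h1 : (Nat.card {xy : (𝓞 K ⧸ v.asIdeal) × (𝓞 K ⧸ v.asIdeal) //
          ((W v).map (Ideal.Quotient.mk v.asIdeal)).toAffine.Equation xy.1 xy.2}) =
      Pool.Agent.TH339.MP.affc ((W v).map (Ideal.Quotient.mk v.asIdeal)) := by
    unfold Pool.Agent.TH339.MP.affc
    refine Nat.card_congr (Equiv.subtypeEquivRight fun q => ?_)
    exact WeierstrassCurve.Affine.equation_iff ..
  unfold denominator trace Pool.Agent.Q9.EL.yv Pool.Agent.TH339.MP.av Pool.Agent.TH339.MP.nm
  rw [h1]
  push_cast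
  ring

lemma logL_eq (c : ℕ → ℂ) (W : HeightOneSpectrum (𝓞 K) → WeierstrassCurve (𝓞 K)) :
    logL c W = Pool.Agent.Q9.EL.lE c W := by
  funext s
  unfold logL Pool.Agent.Q9.EL.lE Pool.Agent.Q9.EL.lec
  exact tsum_congr fun v => by rw [denominator_eq]

lemma edgeLog_eq (c : ℕ → ℂ) (W : HeightOneSpectrum (𝓞 K) → WeierstrassCurve (𝓞 K)) (τ : ℝ) :
    edgeLog c W τ = Pool.Agent.Q9.EL.bE c W τ := by
  unfold edgeLog Pool.Agent.Q9.EL.bE
  rw [logL_eq]
  rfl

lemma near_iff (X : ℕ) (δ τ : ℝ) : Pool.Agent.Q9.EL.Near X δ τ ↔ IsAlmostPeriod X δ τ := by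
  unfold Pool.Agent.Q9.EL.Near IsAlmostPeriod
  refine forall₃_congr fun p hp _ => ?_
  have h1 := Pool.Agent.TH339.MP.cpow_eq ⟨p, hp⟩ 0 τ
  rw [Complex.ofReal_zero, zero_add, neg_zero, Real.rpow_zero, Complex.ofReal_one, one_mul] at h1
  have h2 : (p : ℂ) ^ (-((τ : ℂ) * Complex.I)) = Pool.Agent.TH339.MP.ee (-Real.log p) τ := h1
  rw [h2]

/-- **Universal almost periods.**  First, for every elliptic curve `E` over every number field and every
function `c` with `|c| ≤ 1` (for example `c = 1` or a Dirichlet character): `logL` is a logarithm of the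
Euler product for `Re s > 3/2`, and for all real `τ` outside a set of Hausdorff dimension zero it tends
to `edgeLog τ` in every angle at `3/2 + iτ`.

Second, for all `n` and `ε > 0` there are `X`, `δ > 0` and `l` such that every interval of length `l`
contains a `τ` with `|p^{-iτ} - 1| ≤ δ` for the primes `p ≤ X`, and for every such `τ`, every number
field `K` of degree `≤ n`, every elliptic curve `E` over `K`, every `c` and every real `a` the integral
of `|edgeLog(t + τ) - edgeLog(t)|²` over `[a, a + 1]` is at most `ε`. -/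
theorem result :
    (∀ (K : Type) [Field K] [NumberField K] (E : WeierstrassCurve K) [E.IsElliptic]
      (W : HeightOneSpectrum (𝓞 K) → WeierstrassCurve (𝓞 K)), MinimalModels E W →
      ∀ c : ℕ → ℂ, (∀ n, ‖c n‖ ≤ 1) →
        (∀ s : ℂ, 3 / 2 < s.re → LSeries c W s = Complex.exp (logL c W s)) ∧
        dimH {τ : ℝ | ¬ ∀ C : ℝ, Tendsto (logL c W) (𝓝[angle τ C] (edge τ))
          (𝓝 (edgeLog c W τ))} = 0) ∧
    ∀ (n : ℕ) (ε : ℝ), 0 < ε → ∃ (X : ℕ) (δ l : ℝ), 0 < δ ∧
      (∀ x : ℝ, ∃ τ : ℝ, x ≤ τ ∧ τ ≤ x + l ∧ IsAlmostPeriod X δ τ) ∧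
      ∀ (K : Type) [Field K] [NumberField K], Module.finrank ℚ K ≤ n →
        ∀ (E : WeierstrassCurve K) [E.IsElliptic]
        (W : HeightOneSpectrum (𝓞 K) → WeierstrassCurve (𝓞 K)), MinimalModels E W →
        ∀ c : ℕ → ℂ, (∀ n, ‖c n‖ ≤ 1) → ∀ τ : ℝ, IsAlmostPeriod X δ τ → ∀ a : ℝ,
          IntervalIntegrable (fun t => ‖edgeLog c W (t + τ) - edgeLog c W t‖ ^ 2) volume a (a + 1) ∧
          ∫ t in a..(a + 1), ‖edgeLog c W (t + τ) - edgeLog c W t‖ ^ 2 ≤ ε := by
  refine ⟨?_, fun n ε hε => ?_⟩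
  · intro K _ _ E _ W _ c hc
    obtain ⟨b, hb, h1, h2, h3⟩ := Pool.Agent.Q9.EL.bE_main hc W
    refine ⟨fun s hs => ?_, ?_⟩
    · have h4 := (Pool.Agent.Q9.EL.exp_lE hc W hs).tprod_eq
      rw [logL_eq, ← h4]
      unfold LSeries
      exact tprod_congr fun v => by rw [denominator_eq]
    · simp_rw [edgeLog_eq, logL_eq]
      exact h3
  · -- the choice of `X` and `δ`
    set M : ℝ := ((2 * n : ℕ) : ℝ) with hM
    obtain ⟨X, hX3, hXε⟩ : ∃ X : ℕ, 3 ≤ X ∧ 64800 * M ^ 2 / Real.log X ≤ ε / 16 := by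
      have h1 : Tendsto (fun X : ℕ => 64800 * M ^ 2 / Real.log X) atTop (𝓝 0) :=
        Tendsto.div_atTop tendsto_const_nhds
          (Real.tendsto_log_atTop.comp tendsto_natCast_atTop_atTop)
      obtain ⟨X, h2, h3⟩ := ((h1.eventually (ge_mem_nhds (by positivity : (0 : ℝ) < ε / 16))).and
        (eventually_ge_atTop 3)).exists
      exact ⟨X, h3, h2⟩
    set A : ℝ := M * (Pool.Agent.TH339.MP.TX X).card with hA
    set B : ℝ := 64 * (n : ℝ) ^ 2 with hB
    have hA0 : 0 ≤ A := by positivity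
    have hB0 : 0 ≤ B := by positivity
    obtain ⟨δ, hδ0, hδ⟩ : ∃ δ : ℝ, 0 < δ ∧ (A * δ) ^ 2 + (B * δ) ^ 2 ≤ ε / 8 := by
      have h1 : Tendsto (fun δ : ℝ => (A * δ) ^ 2 + (B * δ) ^ 2) (𝓝[>] 0) (𝓝 0) := by
        have h2 : Continuous fun δ : ℝ => (A * δ) ^ 2 + (B * δ) ^ 2 := by fun_prop
        have h3 := h2.tendsto 0
        norm_num at h3
        exact h3.mono_left nhdsWithin_le_nhds
      obtain ⟨δ, h2, h3⟩ := ((h1.eventually (ge_mem_nhds (by positivity : (0 : ℝ) < ε / 8))).and
        self_mem_nhdsWithin).exists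
      exact ⟨δ, h3, h2⟩
    obtain ⟨l, -, hl⟩ := Pool.Agent.Q9.EL.rel_dense_near X hδ0
    refine ⟨X, δ, l, hδ0, fun x => ?_, ?_⟩
    · obtain ⟨τ, h1, h2, h3⟩ := hl x
      exact ⟨τ, h1, h2, (near_iff X δ τ).1 h3⟩
    · intro K _ _ hK E _ W _ c hc τ hτ a
      obtain ⟨b, hb, h1, h2, h3⟩ := Pool.Agent.Q9.EL.bE_main hc W
      have hn := (near_iff X δ τ).2 hτ
      have hb' : ∀ x, ‖b x‖ ≤ M / (x.2 + 1 : ℕ) := fun x => (hb x).trans (by
        rw [hM]
        gcongr)
      have hn3 : Pool.Agent.Q9.EL.Near 3 δ τ := fun p hp hp3 => hn p hp (hp3.trans hX3)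
      set g : ℝ → ℂ := fun t => Pool.Agent.Q9.EL.h6 c W (Pool.Agent.Q9.EL.edg t) with hg
      have hg1 : ∀ t, ‖g (t + τ) - g t‖ ≤ B * δ := by
        intro t
        have h4 := Pool.Agent.Q9.EL.h6_close hc W hn3
          (s := Pool.Agent.Q9.EL.edg t) (by rw [Pool.Agent.Q9.EL.edg_re])
        have e : Pool.Agent.Q9.EL.edg t + τ * Complex.I = Pool.Agent.Q9.EL.edg (t + τ) := by
          unfold Pool.Agent.Q9.EL.edg
          push_cast
          ring
        rw [e] at h4
        refine h4.trans ?_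
        rw [hB]
        gcongr
      have hmain := Pool.Agent.Q9.EL.ap_close hb' (g := g) (by omega : 2 ≤ X) hn hg1 a
      -- the boundary function
      have hae : ∀ᵐ t : ℝ, edgeLog c W t = g t + Pool.Agent.TH339.MP.bl b t := by
        filter_upwards [Pool.Agent.TH339.MP.ae_notMem hb] with t ht
        rw [edgeLog_eq]
        exact h2 t ht
      have hae' : ∀ᵐ t : ℝ, edgeLog c W (t + τ) = g (t + τ) + Pool.Agent.TH339.MP.bl b (t + τ) :=
        (measurePreserving_add_right (volume : Measure ℝ) τ).quasiMeasurePreserving.ae hae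
      have hgc : Continuous g := by
        rw [continuous_iff_continuousAt]
        intro t
        have h4 : ContinuousAt (Pool.Agent.Q9.EL.h6 c W) (Pool.Agent.Q9.EL.edg t) :=
          Pool.Agent.Q9.EL.h6_cont hc W (by rw [Pool.Agent.Q9.EL.edg_re])
        have h5 : ContinuousAt Pool.Agent.Q9.EL.edg t := by
          unfold Pool.Agent.Q9.EL.edg
          fun_prop
        exact h4.comp h5
      have hm : AEMeasurable fun t => g t + Pool.Agent.TH339.MP.bl b t :=
        hgc.aemeasurable.add (Pool.Agent.TH339.MP.boundary hb).1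
      have hm' : AEMeasurable fun t => g (t + τ) + Pool.Agent.TH339.MP.bl b (t + τ) :=
        hm.comp_quasiMeasurePreserving
          (measurePreserving_add_right (volume : Measure ℝ) τ).quasiMeasurePreserving
      set F : ℝ → ℝ := fun t => ‖(g (t + τ) + Pool.Agent.TH339.MP.bl b (t + τ)) -
        (g t + Pool.Agent.TH339.MP.bl b t)‖ ^ 2 with hF
      have hFm : AEStronglyMeasurable F (volume.restrict (Set.Icc a (a + 1))) :=
        ((hm'.sub hm).norm.pow_const 2).aestronglyMeasurable.restrict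
      have hFle : ∫⁻ t in Set.Icc a (a + 1), ENNReal.ofReal (F t) ≤ ENNReal.ofReal ε := by
        refine hmain.trans (ENNReal.ofReal_le_ofReal ?_)
        have e : M * δ * (Pool.Agent.TH339.MP.TX X).card = A * δ := by
          rw [hA]
          ring
        rw [e]
        linarith
      have hFi : IntegrableOn F (Set.Icc a (a + 1)) := by
        refine ⟨hFm, ?_⟩
        rw [hasFiniteIntegral_iff_ofReal (Eventually.of_forall fun t => by positivity)]
        exact lt_of_le_of_lt hFle ENNReal.ofReal_lt_top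
      have hFint : ∫ t in Set.Icc a (a + 1), F t ≤ ε := by
        have h4 := ofReal_integral_eq_lintegral_ofReal hFi
          (Eventually.of_forall fun t => by positivity)
        rw [← h4] at hFle
        exact (ENNReal.ofReal_le_ofReal_iff hε.le).1 hFle
      have hcong : ∀ᵐ t : ℝ, F t = ‖edgeLog c W (t + τ) - edgeLog c W t‖ ^ 2 := by
        filter_upwards [hae, hae'] with t h4 h5
        rw [h4, h5]
      have hFii : IntervalIntegrable F volume a (a + 1) :=
        (intervalIntegrable_iff_integrableOn_Icc_of_le (by linarith)).2 hFi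
      refine ⟨(intervalIntegrable_congr_ae (ae_restrict_of_ae hcong)).1 hFii, ?_⟩
      have e1 : ∫ t in a..(a + 1), ‖edgeLog c W (t + τ) - edgeLog c W t‖ ^ 2 =
          ∫ t in a..(a + 1), F t := by
        refine intervalIntegral.integral_congr_ae ?_
        filter_upwards [hcong] with t ht _
        exact ht.symm
      rw [e1, intervalIntegral.integral_of_le (by linarith), ← integral_Icc_eq_integral_Ioc]
      exact hFint

end Pool.Agent.Results.MP_0d9be2_nt.UniversalAlmostPeriods
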